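import Mathlib
import Pool.Agent.Helper514.IoD

/-!
# Invariance of dimension for injective continuous maps (from invariance of domain)
-/

set_option autoImplicit false

open Metric Set Filter Topology Module

namespace Pool.Agent.W964.LieExp

/-- A continuous injective map from a nonempty open subset of a finite-dimensional real vector
space `V` to a finite-dimensional real vector space `W` exists only if `dim V ≤ dim W`. -/
theorem finrank_le_of_injOn {V W : Type*} [NormedAddCommGroup V] [NormedSpace ℝ V]
    [FiniteDimensional ℝ V] [NormedAddCommGroup W] [NormedSpace ℝ W] [FiniteDimensional ℝ W]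
    (U : Set V) (hU : IsOpen U) (x0 : V) (hx0 : x0 ∈ U) (f : V → W) (hc : ContinuousOn f U)
    (hi : InjOn f U) : finrank ℝ V ≤ finrank ℝ W := by
  by_contra hlt
  push Not at hlt
  set n := finrank ℝ V with hn
  let E := EuclideanSpace ℝ (Fin n)
  have hE : finrank ℝ E = n := by simp [E]
  let L : V ≃L[ℝ] E := ContinuousLinearEquiv.ofFinrankEq (by rw [hE])
  obtain ⟨j, hj⟩ : ∃ j : W →ₗ[ℝ] E, Function.Injective j := by
    have h1 : finrank ℝ W ≤ finrank ℝ E := by rw [hE]; exact hlt.le
    exact finrank_le_iff_exists_linearMap.1 h1
  have hrange : LinearMap.range j ≠ ⊤ := by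
    intro h
    have h1 : finrank ℝ (LinearMap.range j) = finrank ℝ W := LinearMap.finrank_range_of_inj hj
    rw [h, finrank_top, hE] at h1
    omega
  have hjc : Continuous j := LinearMap.continuous_of_finiteDimensional j
  have hopen : IsOpen (L.symm ⁻¹' U) := hU.preimage L.symm.continuous
  have hmem : L x0 ∈ L.symm ⁻¹' U := by simpa using hx0
  obtain ⟨r, hr, hball⟩ := Metric.nhds_basis_closedBall.mem_iff.1 (hopen.mem_nhds hmem)
  have hg := Helper514.IoD.image_mem_nhds (E := E) (fun y => j (f (L.symm y))) (L x0) r hr
    (by
      apply hjc.comp_continuousOn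
      apply hc.comp L.symm.continuous.continuousOn
      intro y hy
      exact hball hy)
    (by
      intro a ha b hb hab
      exact L.symm.injective (hi (hball ha) (hball hb) (hj hab)))
  have h2 : (interior (LinearMap.range j : Set E)).Nonempty := by
    refine ⟨j (f (L.symm (L x0))), ?_⟩
    rw [mem_interior_iff_mem_nhds]
    refine Filter.mem_of_superset hg ?_
    rintro _ ⟨y, -, rfl⟩
    exact LinearMap.mem_range_self _ _
  exact hrange (Submodule.eq_top_of_nonempty_interior' _ h2)

end Pool.Agent.W964.LieExp
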