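import Mathlib

/-!
# Lie exponents of Lie groups

Definitions for `MP_56bb89_lc`. A Lie group of dimension `d` is a group `G` with a smooth manifold
structure modelled on a real vector space `E` of dimension `d`.
-/

set_option autoImplicit false

open scoped Manifold ContDiff
open Module

namespace Pool.Agent.W964.LieExp

/-- A real Lie group of finite positive dimension: a Hausdorff, second countable topological space
`G` with a `C^∞` manifold structure (without boundary) modelled on the finite-dimensional real
vector space `E ≠ 0`, and with a group structure whose product and inverse are `C^∞`. -/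
structure RealLieGroup where
  /-- the model vector space -/
  E : Type
  [normedAddCommGroup : NormedAddCommGroup E]
  [normedSpace : NormedSpace ℝ E]
  [finiteDimensional : FiniteDimensional ℝ E]
  [nontrivial : Nontrivial E]
  /-- the group -/
  G : Type
  [topologicalSpace : TopologicalSpace G]
  [t2Space : T2Space G]
  [secondCountable : SecondCountableTopology G]
  [chartedSpace : ChartedSpace E G]
  [group : Group G]
  [lieGroup : LieGroup 𝓘(ℝ, E) ∞ G]

attribute [instance] RealLieGroup.normedAddCommGroup RealLieGroup.normedSpace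
  RealLieGroup.finiteDimensional RealLieGroup.nontrivial RealLieGroup.topologicalSpace
  RealLieGroup.t2Space RealLieGroup.secondCountable RealLieGroup.chartedSpace
  RealLieGroup.group RealLieGroup.lieGroup

section

variable (E : Type) [NormedAddCommGroup E] [NormedSpace ℝ E] [FiniteDimensional ℝ E]
  (G : Type) [TopologicalSpace G] [ChartedSpace E G] [Group G] [LieGroup 𝓘(ℝ, E) ∞ G]

/-- A `C^∞` Lie group is a Lie group of the smoothness class for which Mathlib defines the Lie
algebra. -/
instance instLieGroupMinSmoothness : LieGroup 𝓘(ℝ, E) (minSmoothness ℝ 3) G := by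
  rw [minSmoothness_of_isRCLikeNormedField]
  infer_instance

instance instCompleteOfFinite : CompleteSpace E := FiniteDimensional.complete ℝ E

/-- The rank of a Lie group: the dimension of a Cartan subalgebra of its Lie algebra. (All Cartan
subalgebras of a finite-dimensional real Lie algebra have the same dimension.) -/
noncomputable def rank : ℕ :=
  sInf {k : ℕ | ∃ H : LieSubalgebra ℝ (GroupLieAlgebra 𝓘(ℝ, E) G),
    H.IsCartanSubalgebra ∧ finrank ℝ H = k}

end

section

variable (E : Type) [NormedAddCommGroup E] [NormedSpace ℝ E]
  {G : Type} [TopologicalSpace G] [ChartedSpace E G]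

/-- `M` is a (nonempty, embedded) smooth submanifold of dimension `m`: around each of its points
there is a chart of the maximal smooth atlas in which `M` is an affine subspace of dimension `m`. -/
def IsSubmanifold (m : ℕ) (M : Set G) : Prop :=
  M.Nonempty ∧ ∀ x ∈ M, ∃ e ∈ IsManifold.maximalAtlas 𝓘(ℝ, E) ∞ G, x ∈ e.source ∧
    ∃ W : Submodule ℝ E, finrank ℝ W = m ∧ ∀ y ∈ e.source, (y ∈ M ↔ e y - e x ∈ W)

end

section

variable {G : Type} [Group G]

/-- `Q(X)`, the set of the quotients `x x'⁻¹` of elements of `X`. -/
def quotients (X : Set G) : Set G := {g | ∃ x ∈ X, ∃ x' ∈ X, g = x * x'⁻¹}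

/-- The triple product property of three subsets of a group. -/
def TripleProductProperty (S T U : Set G) : Prop :=
  ∀ s ∈ quotients S, ∀ t ∈ quotients T, ∀ u ∈ quotients U, s * t * u = 1 → s = 1 ∧ t = 1 ∧ u = 1

end

/-- The Lie exponent of a Lie group `G` of dimension `d` and rank `r`: the infimum of
`r / ((m₁ + m₂ + m₃) / 3 - (d - r) / 2)` over all triples of smooth submanifolds of dimensions
`m₁`, `m₂`, `m₃` that satisfy the triple product property and for which the denominator is positive
(`⊤` if there is no such triple). -/
noncomputable def RealLieGroup.lieExponent (A : RealLieGroup) : EReal :=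
  sInf {w : EReal | ∃ (M₁ M₂ M₃ : Set A.G) (m₁ m₂ m₃ : ℕ),
    IsSubmanifold A.E m₁ M₁ ∧ IsSubmanifold A.E m₂ M₂ ∧ IsSubmanifold A.E m₃ M₃ ∧
    TripleProductProperty M₁ M₂ M₃ ∧
    (0 : ℝ) < ((m₁ : ℝ) + m₂ + m₃) / 3 - ((finrank ℝ A.E : ℝ) - rank A.E A.G) / 2 ∧
    w = (((rank A.E A.G : ℝ) /
      (((m₁ : ℝ) + m₂ + m₃) / 3 - ((finrank ℝ A.E : ℝ) - rank A.E A.G) / 2) : ℝ) : EReal)}

end Pool.Agent.W964.LieExp
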