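import Pool.Agent.W964.LieExp.Defs

/-!
# Heisenberg groups
-/

set_option autoImplicit false

open scoped Manifold ContDiff RealInnerProductSpace
open Module Set Filter Topology

noncomputable section

namespace Pool.Agent.W964.LieExp

/-- The model space of the Heisenberg group. -/
abbrev HV (n : ℕ) : Type := EuclideanSpace ℝ (Fin n) × EuclideanSpace ℝ (Fin n) × ℝ

/-- The Heisenberg group of dimension `2 n + 1`: triples `(x, y, z)` with `x, y ∈ ℝⁿ`, `z ∈ ℝ` and
the product `(x, y, z) (x', y', z') = (x + x', y + y', z + z' + x ⬝ y' - y ⬝ x')`. -/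
def Heis (n : ℕ) : Type := HV n

namespace Heis

variable {n : ℕ}

instance : TopologicalSpace (Heis n) := inferInstanceAs (TopologicalSpace (HV n))

instance : T2Space (Heis n) := inferInstanceAs (T2Space (HV n))

instance : SecondCountableTopology (Heis n) := inferInstanceAs (SecondCountableTopology (HV n))

instance : ChartedSpace (HV n) (Heis n) := inferInstanceAs (ChartedSpace (HV n) (HV n))

instance : IsManifold 𝓘(ℝ, HV n) ∞ (Heis n) := inferInstanceAs (IsManifold 𝓘(ℝ, HV n) ∞ (HV n))

/-- The product of the Heisenberg group. -/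
def mulFun (p q : HV n) : HV n :=
  (p.1 + q.1, p.2.1 + q.2.1, p.2.2 + q.2.2 + ⟪p.1, q.2.1⟫ - ⟪p.2.1, q.1⟫)

/-- The inverse of the Heisenberg group. -/
def invFun (p : HV n) : HV n := -p

theorem mulFun_assoc (a b c : HV n) : mulFun (mulFun a b) c = mulFun a (mulFun b c) := by
  simp only [mulFun, Prod.mk.injEq, inner_add_left, inner_add_right]
  exact ⟨add_assoc _ _ _, add_assoc _ _ _, by ring⟩

theorem mulFun_zero (a : HV n) : mulFun a 0 = a := by
  simp [mulFun]

theorem zero_mulFun (a : HV n) : mulFun 0 a = a := by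
  simp [mulFun]

theorem inv_mulFun (a : HV n) : mulFun (invFun a) a = 0 := by
  simp only [mulFun, invFun, Prod.fst_neg, Prod.snd_neg, inner_neg_left, neg_add_cancel,
    real_inner_comm a.1 a.2.1]
  ext <;> simp

instance : Group (Heis n) where
  mul p q := mulFun p q
  one := (0 : HV n)
  inv p := invFun p
  mul_assoc := mulFun_assoc
  one_mul := zero_mulFun
  mul_one := mulFun_zero
  inv_mul_cancel := inv_mulFun

theorem mul_def (p q : Heis n) : p * q = mulFun p q := rfl
theorem one_def : (1 : Heis n) = (0 : HV n) := rfl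
theorem inv_def (p : Heis n) : p⁻¹ = invFun p := rfl

theorem contDiff_mulFun {k : WithTop ℕ∞} :
    ContDiff ℝ k (fun p : HV n × HV n => mulFun p.1 p.2) := by
  unfold mulFun
  have h1 : ContDiff ℝ k (fun p : HV n × HV n => ⟪p.1.1, p.2.2.1⟫) :=
    ContDiff.inner ℝ (by fun_prop) (by fun_prop)
  have h2 : ContDiff ℝ k (fun p : HV n × HV n => ⟪p.1.2.1, p.2.1⟫) :=
    ContDiff.inner ℝ (by fun_prop) (by fun_prop)
  exact ContDiff.prodMk (by fun_prop) (ContDiff.prodMk (by fun_prop)
    (ContDiff.sub (ContDiff.add (by fun_prop) h1) h2))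

theorem contDiff_invFun {k : WithTop ℕ∞} : ContDiff ℝ k (fun p : HV n => invFun p) := by
  unfold invFun
  fun_prop

instance : LieGroup 𝓘(ℝ, HV n) ∞ (Heis n) where
  contMDiff_mul := by
    have h := (contDiff_mulFun (n := n) (k := ∞)).contMDiff
    rw [modelWithCornersSelf_prod, ← chartedSpaceSelf_prod] at h
    exact h
  contMDiff_inv := (contDiff_invFun (n := n) (k := ∞)).contMDiff

/-- The Heisenberg group as a Lie group. -/
def lie (n : ℕ) : RealLieGroup where
  E := HV n
  G := Heis n

end Heis

end Pool.Agent.W964.LieExp
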