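import Pool.Agent.W964.LieExp.Heis

/-!
# The rank of the Heisenberg groups
-/

set_option autoImplicit false

open scoped Manifold ContDiff RealInnerProductSpace
open Module Set Filter Topology VectorField

noncomputable section

namespace Pool.Agent.W964.LieExp

/-- In a Lie algebra in which all double brackets vanish every Cartan subalgebra is everything. -/
theorem cartan_eq_top {L : Type*} [LieRing L] [LieAlgebra ℝ L]
    (h : ∀ u v w : L, ⁅⁅u, v⁆, w⁆ = 0) (H : LieSubalgebra ℝ L) (hH : H.IsCartanSubalgebra) :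
    H = ⊤ := by
  have hn : H.normalizer = H := hH.self_normalizing
  have h1 : ∀ u v : L, ⁅u, v⁆ ∈ H := by
    intro u v
    rw [← hn, LieSubalgebra.mem_normalizer_iff]
    intro y _
    rw [h]
    exact H.zero_mem
  rw [eq_top_iff]
  intro x _
  rw [← hn, LieSubalgebra.mem_normalizer_iff]
  intro y _
  exact h1 x y

theorem top_isCartan {L : Type*} [LieRing L] [LieAlgebra ℝ L]
    (h : ∀ u v w : L, ⁅⁅u, v⁆, w⁆ = 0) : (⊤ : LieSubalgebra ℝ L).IsCartanSubalgebra := by
  have hnil : LieModule.IsNilpotent L L := by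
    rw [LieModule.isNilpotent_iff ℝ L L]
    refine ⟨2, ?_⟩
    rw [LieModule.lowerCentralSeries_succ, LieSubmodule.lie_eq_bot_iff]
    intro x _ m hm
    have h2 : LieModule.lowerCentralSeries ℝ L L 1 ≤ LieAlgebra.center ℝ L := by
      rw [LieModule.lowerCentralSeries_succ, LieSubmodule.lie_le_iff]
      intro x _ m _
      rw [LieModule.mem_maxTrivSubmodule]
      intro y
      rw [← lie_skew, h, neg_zero]
    have h3 := h2 hm
    rw [LieModule.mem_maxTrivSubmodule] at h3
    exact h3 x
  have : LieRing.IsNilpotent L := hnil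
  infer_instance

namespace Heis

variable {n : ℕ}

/-- the derivative at the identity of the left multiplication by `g` -/
def leftD (g : HV n) : HV n →L[ℝ] HV n :=
  (ContinuousLinearMap.fst ℝ _ _).prod
    (((ContinuousLinearMap.fst ℝ _ _).comp (ContinuousLinearMap.snd ℝ _ _)).prod
      (((ContinuousLinearMap.snd ℝ _ _).comp (ContinuousLinearMap.snd ℝ _ _)) +
        (innerSL ℝ g.1).comp ((ContinuousLinearMap.fst ℝ _ _).comp
          (ContinuousLinearMap.snd ℝ _ _)) -
        (innerSL ℝ g.2.1).comp (ContinuousLinearMap.fst ℝ _ _)))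

theorem leftD_apply (g v : HV n) :
    leftD g v = (v.1, v.2.1, v.2.2 + ⟪g.1, v.2.1⟫ - ⟪g.2.1, v.1⟫) := rfl

theorem mulFun_eq (g v : HV n) : mulFun g v = g + leftD g v := by
  rw [leftD_apply]
  simp only [mulFun]
  ext
  · simp
  · simp
  · simp
    ring

theorem hasFDerivAt_mulFun (g x : HV n) : HasFDerivAt (fun h : HV n => mulFun g h) (leftD g) x := by
  have h2 : (fun h : HV n => mulFun g h) = fun h => g + leftD g h := by
    funext h
    exact mulFun_eq g h
  rw [h2]
  exact (leftD g).hasFDerivAt.const_add _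

/-- The invariant vector field as a map of vector spaces. -/
def fld (v : HV n) : HV n → HV n := fun g => leftD g v

theorem field_eq (v : GroupLieAlgebra 𝓘(ℝ, HV n) (Heis n)) (g : Heis n) :
    mulInvariantVectorField v g = fld v g := by
  have h3 : mfderiv 𝓘(ℝ, HV n) 𝓘(ℝ, HV n) (fun h : HV n => mulFun g h) (0 : HV n) =
      leftD (n := n) g := by
    rw [mfderiv_eq_fderiv]
    exact (hasFDerivAt_mulFun _ _).fderiv
  exact congrArg (fun L : HV n →L[ℝ] HV n => L v) h3

/-- the derivative of the vector field `fld v` -/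
def fldD (v : HV n) : HV n →L[ℝ] HV n :=
  (0 : HV n →L[ℝ] EuclideanSpace ℝ (Fin n)).prod
    ((0 : HV n →L[ℝ] EuclideanSpace ℝ (Fin n)).prod
      ((innerSL ℝ v.2.1).comp (ContinuousLinearMap.fst ℝ _ _) -
        (innerSL ℝ v.1).comp ((ContinuousLinearMap.fst ℝ _ _).comp
          (ContinuousLinearMap.snd ℝ _ _))))

theorem fldD_apply (v w : HV n) : fldD v w = (0, 0, ⟪v.2.1, w.1⟫ - ⟪v.1, w.2.1⟫) := rfl

theorem fld_fderiv (v x : HV n) : fderiv ℝ (fld v) x = fldD v := by
  have h2 : fld v = fun g => v + fldD v g := by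
    funext g
    simp only [fld, leftD_apply, fldD_apply]
    rw [real_inner_comm v.2.1 g.1, real_inner_comm v.1 g.2.1]
    ext
    · simp
    · simp
    · simp
      ring
  rw [h2]
  exact ((fldD v).hasFDerivAt.const_add _).fderiv

/-- the bracket, as a map of vector spaces -/
def br (v w : HV n) : HV n :=
  (0, 0, (⟪w.2.1, v.1⟫ - ⟪w.1, v.2.1⟫) - (⟪v.2.1, w.1⟫ - ⟪v.1, w.2.1⟫))

theorem lieBracket_fld (v w : HV n) : lieBracket ℝ (fld v) (fld w) (0 : HV n) = br v w := by
  rw [lieBracket, fld_fderiv, fld_fderiv]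
  simp [fld, leftD_apply, fldD_apply, br]

theorem mlie_eq (V W : (x : HV n) → TangentSpace 𝓘(ℝ, HV n) x) :
    mlieBracket 𝓘(ℝ, HV n) V W = lieBracket ℝ V W := by
  rw [← mlieBracketWithin_univ, mlieBracketWithin_eq_lieBracketWithin]
  exact lieBracketWithin_univ (V := (V : HV n → HV n)) (W := (W : HV n → HV n))

theorem bracket_eq (v w : GroupLieAlgebra 𝓘(ℝ, HV n) (Heis n)) : ⁅v, w⁆ = br (n := n) v w := by
  rw [GroupLieAlgebra.bracket_def]
  have h2 : (mulInvariantVectorField (G := Heis n) (I := 𝓘(ℝ, HV n)) v) = fld (n := n) v := by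
    funext g
    exact field_eq v g
  have h3 : (mulInvariantVectorField (G := Heis n) (I := 𝓘(ℝ, HV n)) w) = fld (n := n) w := by
    funext g
    exact field_eq w g
  rw [h2, h3]
  exact (congrFun (mlie_eq (fld (n := n) v) (fld (n := n) w)) 0).trans (lieBracket_fld v w)

theorem bracket_bracket (u v w : GroupLieAlgebra 𝓘(ℝ, HV n) (Heis n)) : ⁅⁅u, v⁆, w⁆ = 0 := by
  rw [bracket_eq, bracket_eq]
  have : br (br (n := n) u v) w = 0 := by
    simp [br]
  exact this

theorem rank_eq (n : ℕ) : rank (HV n) (Heis n) = 2 * n + 1 := by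
  have hfin : finrank ℝ (GroupLieAlgebra 𝓘(ℝ, HV n) (Heis n)) = 2 * n + 1 := by
    have : finrank ℝ (HV n) = 2 * n + 1 := by
      simp
      ring
    exact this
  have hset : {k : ℕ | ∃ H : LieSubalgebra ℝ (GroupLieAlgebra 𝓘(ℝ, HV n) (Heis n)),
      H.IsCartanSubalgebra ∧ finrank ℝ H = k} = {2 * n + 1} := by
    ext k
    simp only [mem_ofPred_eq, mem_singleton_iff]
    constructor
    · rintro ⟨H, hH, rfl⟩
      rw [cartan_eq_top bracket_bracket H hH]
      rw [← hfin]
      exact finrank_top ℝ _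
    · rintro rfl
      refine ⟨⊤, top_isCartan bracket_bracket, ?_⟩
      rw [← hfin]
      exact finrank_top ℝ _
  rw [rank, hset]
  exact csInf_singleton _

end Heis

end Pool.Agent.W964.LieExp
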