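import Pool.Agent.W964.LieExp.Defs
import Pool.Agent.W964.LieExp.InvDim

/-!
# Every Lie exponent is at least two
-/

set_option autoImplicit false

open scoped Manifold ContDiff
open Module Set Filter Topology

namespace Pool.Agent.W964.LieExp

theorem TripleProductProperty.rotate {G : Type} [Group G] {S T U : Set G}
    (h : TripleProductProperty S T U) : TripleProductProperty T U S := by
  intro t ht u hu s hs h1
  have h2 : s * t * u = 1 := by
    have h3 : t * u = s⁻¹ := eq_inv_of_mul_eq_one_left h1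
    rw [mul_assoc, h3, mul_inv_cancel]
  obtain ⟨a, b, c⟩ := h s hs t ht u hu h2
  exact ⟨b, c, a⟩

/-- If `S, T, U` satisfy the triple product property then `(s, t) ↦ s⁻¹ t` is injective. -/
theorem TripleProductProperty.inj {G : Type} [Group G] {S T U : Set G}
    (h : TripleProductProperty S T U) (hU : U.Nonempty) {s s' t t' : G} (hs : s ∈ S) (hs' : s' ∈ S)
    (ht : t ∈ T) (ht' : t' ∈ T) (heq : s⁻¹ * t = s'⁻¹ * t') : s = s' ∧ t = t' := by
  obtain ⟨u, hu⟩ := hU
  have h1 := h (s' * s⁻¹) ⟨s', hs', s, hs, rfl⟩ (t * t'⁻¹) ⟨t, ht, t', ht', rfl⟩ (u * u⁻¹)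
    ⟨u, hu, u, hu, rfl⟩ (by
      have : s' * s⁻¹ * (t * t'⁻¹) * (u * u⁻¹) = s' * (s⁻¹ * t) * t'⁻¹ := by group
      rw [this, heq]
      group)
  refine ⟨?_, ?_⟩
  · exact (mul_inv_eq_one.1 h1.1).symm
  · exact mul_inv_eq_one.1 h1.2.1

theorem dim_add_le (A : RealLieGroup) {S T U : Set A.G} {m₁ m₂ : ℕ}
    (hS : IsSubmanifold A.E m₁ S) (hT : IsSubmanifold A.E m₂ T) (hU : U.Nonempty)
    (h : TripleProductProperty S T U) : m₁ + m₂ ≤ finrank ℝ A.E := by
  obtain ⟨⟨x, hx⟩, hS⟩ := hS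
  obtain ⟨⟨y, hy⟩, hT⟩ := hT
  obtain ⟨e, -, hxe, W, hW, heW⟩ := hS x hx
  obtain ⟨e', -, hye, W', hW', heW'⟩ := hT y hy
  have : IsTopologicalGroup A.G := topologicalGroup_of_lieGroup 𝓘(ℝ, A.E) ∞
  let c := chartAt A.E (x⁻¹ * y)
  let P : W × W' → A.E × A.E := fun p => (e x + p.1, e' y + p.2)
  have hP : Continuous P := by
    apply Continuous.prodMk
    · exact continuous_const.add (continuous_subtype_val.comp continuous_fst)
    · exact continuous_const.add (continuous_subtype_val.comp continuous_snd)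
  let V : Set (W × W') := P ⁻¹' (e.target ×ˢ e'.target)
  have hV : IsOpen V := (e.open_target.prod e'.open_target).preimage hP
  let F : W × W' → A.G := fun p => (e.symm (e x + p.1))⁻¹ * e'.symm (e' y + p.2)
  have hF : ContinuousOn F V := by
    apply ContinuousOn.mul
    · apply ContinuousOn.inv
      apply e.continuousOn_symm.comp (hP.fst.continuousOn)
      intro p hp
      exact hp.1
    · apply e'.continuousOn_symm.comp (hP.snd.continuousOn)
      intro p hp
      exact hp.2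
  let O : Set (W × W') := V ∩ F ⁻¹' c.source
  have hO : IsOpen O := hF.isOpen_inter_preimage hV c.open_source
  have h0 : (0 : W × W') ∈ O := by
    refine ⟨⟨?_, ?_⟩, ?_⟩
    · simpa [P] using e.map_source hxe
    · simpa [P] using e'.map_source hye
    · simp only [F, mem_preimage, Prod.fst_zero, Prod.snd_zero, ZeroMemClass.coe_zero, add_zero,
        e.left_inv hxe, e'.left_inv hye]
      exact mem_chart_source _ _
  have hmemS : ∀ p ∈ V, e.symm (e x + p.1) ∈ S := by
    intro p hp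
    have hp1 : e x + p.1 ∈ e.target := hp.1
    rw [heW _ (e.map_target hp1), e.right_inv hp1]
    simp
  have hmemT : ∀ p ∈ V, e'.symm (e' y + p.2) ∈ T := by
    intro p hp
    have hp1 : e' y + p.2 ∈ e'.target := hp.2
    rw [heW' _ (e'.map_target hp1), e'.right_inv hp1]
    simp
  have hinj : InjOn F V := by
    intro p hp q hq hpq
    obtain ⟨h1, h2⟩ := h.inj hU (hmemS p hp) (hmemS q hq) (hmemT p hp) (hmemT q hq) hpq
    have h3 := e.symm.injOn hp.1 hq.1 h1
    have h4 := e'.symm.injOn hp.2 hq.2 h2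
    have h5 : (p.1 : A.E) = q.1 := add_left_cancel h3
    have h6 : (p.2 : A.E) = q.2 := add_left_cancel h4
    exact Prod.ext (Subtype.ext h5) (Subtype.ext h6)
  have hc : ContinuousOn (fun p => c (F p)) O :=
    c.continuousOn.comp (hF.mono inter_subset_left) (fun p hp => hp.2)
  have hi : InjOn (fun p => c (F p)) O := by
    intro p hp q hq hpq
    exact hinj hp.1 hq.1 (c.injOn hp.2 hq.2 hpq)
  have := finrank_le_of_injOn O hO 0 h0 _ hc hi
  rwa [finrank_prod, hW, hW'] at this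

/-- Every triple with the triple product property has `m₁ + m₂ + m₃ ≤ 3 d / 2`. -/
theorem two_mul_dim_le (A : RealLieGroup) {S T U : Set A.G} {m₁ m₂ m₃ : ℕ}
    (hS : IsSubmanifold A.E m₁ S) (hT : IsSubmanifold A.E m₂ T) (hU : IsSubmanifold A.E m₃ U)
    (h : TripleProductProperty S T U) : 2 * (m₁ + m₂ + m₃) ≤ 3 * finrank ℝ A.E := by
  have h1 := dim_add_le A hS hT hU.1 h
  have h2 := dim_add_le A hT hU hS.1 h.rotate
  have h3 := dim_add_le A hU hS hT.1 h.rotate.rotate
  omega

/-- The Lie exponent of every Lie group is at least two. -/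
theorem two_le_lieExponent (A : RealLieGroup) : (2 : EReal) ≤ A.lieExponent := by
  apply le_sInf
  rintro w ⟨S, T, U, m₁, m₂, m₃, hS, hT, hU, h, hpos, rfl⟩
  have h1 := two_mul_dim_le A hS hT hU h
  have h2 : (2 : ℝ) * (m₁ + m₂ + m₃) ≤ 3 * finrank ℝ A.E := by exact_mod_cast h1
  have h3 : (2 : ℝ) ≤ (rank A.E A.G : ℝ) /
      (((m₁ : ℝ) + m₂ + m₃) / 3 - ((finrank ℝ A.E : ℝ) - rank A.E A.G) / 2) := by
    rw [le_div_iff₀ hpos]
    linarith
  have h4 : ((2 : ℝ) : EReal) ≤ (((rank A.E A.G : ℝ) /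
      (((m₁ : ℝ) + m₂ + m₃) / 3 - ((finrank ℝ A.E : ℝ) - rank A.E A.G) / 2) : ℝ) : EReal) :=
    EReal.coe_le_coe_iff.2 h3
  exact h4

end Pool.Agent.W964.LieExp
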