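import Pool.Agent.W964.LieExp.Lower
import Pool.Agent.W964.LieExp.HeisRank

/-!
# The Lie exponents of the Heisenberg groups tend to two
-/

set_option autoImplicit false

open scoped Manifold ContDiff RealInnerProductSpace
open Module Set Filter Topology

noncomputable section

namespace Pool.Agent.W964.LieExp.Heis

variable {n : ℕ}

/-- A linear subspace of `HV n` is a submanifold of the Heisenberg group. -/
theorem isSubmanifold_submodule (W : Submodule ℝ (HV n)) :
    IsSubmanifold (HV n) (G := Heis n) (finrank ℝ W) {x : Heis n | (x : HV n) ∈ W} := by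
  refine ⟨⟨(0 : HV n), W.zero_mem⟩, ?_⟩
  intro x hx
  refine ⟨OpenPartialHomeomorph.refl (HV n), ?_, mem_univ _, W, rfl, ?_⟩
  · exact IsManifold.chart_mem_maximalAtlas (I := 𝓘(ℝ, HV n)) (n := ∞) (x : HV n)
  · intro y _
    constructor
    · intro hy
      exact W.sub_mem hy hx
    · intro hy
      exact (W.sub_mem_iff_left (x := (y : HV n)) hx).1 hy

/-- the linear map `a ↦ (α a, β a, 0)` -/
def lin (n : ℕ) (α β : ℝ) : EuclideanSpace ℝ (Fin n) →ₗ[ℝ] HV n :=
  (α • LinearMap.id).prod ((β • LinearMap.id).prod 0)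

theorem lin_apply (α β : ℝ) (a : EuclideanSpace ℝ (Fin n)) : lin n α β a = (α • a, β • a, 0) := rfl

theorem finrank_lin (α β : ℝ) (h : α ≠ 0 ∨ β ≠ 0) :
    finrank ℝ (LinearMap.range (lin n α β)) = n := by
  have hinj : Function.Injective (lin n α β) := by
    intro a b hab
    rw [lin_apply, lin_apply] at hab
    simp only [Prod.mk.injEq, and_true] at hab
    rcases h with h | h
    · exact smul_right_injective _ h hab.1
    · exact smul_right_injective _ h hab.2
  rw [LinearMap.finrank_range_of_inj hinj]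
  simp

/-- the subgroup of the elements `(α a, β a, 0)` -/
def Sub (n : ℕ) (α β : ℝ) : Set (Heis n) := {x : Heis n | (x : HV n) ∈ LinearMap.range (lin n α β)}

theorem isSubmanifold_Sub (α β : ℝ) (h : α ≠ 0 ∨ β ≠ 0) :
    IsSubmanifold (HV n) (G := Heis n) n (Sub n α β) := by
  have := isSubmanifold_submodule (LinearMap.range (lin n α β))
  rwa [finrank_lin α β h] at this

theorem quotients_Sub {α β : ℝ} {g : Heis n} (hg : g ∈ quotients (Sub n α β)) :
    ∃ a : EuclideanSpace ℝ (Fin n), g = ((α • a, β • a, 0) : HV n) := by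
  obtain ⟨x, ⟨a, ha⟩, y, ⟨b, hb⟩, rfl⟩ := hg
  rw [lin_apply] at ha hb
  refine ⟨a - b, ?_⟩
  have h1 : mulFun ((α • a, β • a, 0) : HV n) (invFun ((α • b, β • b, 0) : HV n)) =
      ((α • (a - b), β • (a - b), 0) : HV n) := by
    simp only [mulFun, invFun]
    ext
    · simp [sub_eq_add_neg]
    · simp [sub_eq_add_neg]
    · simp [inner_smul_left, inner_smul_right]
      ring
  rw [ha, hb] at h1
  exact h1

/-- The three Lagrangian subgroups `(a, 0, 0)`, `(0, b, 0)`, `(c, c, 0)` of the Heisenberg group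
satisfy the triple product property. -/
theorem tripleProduct : TripleProductProperty (Sub n 1 0) (Sub n 0 1) (Sub n 1 1) := by
  intro s hs t ht u hu h
  obtain ⟨a, rfl⟩ := quotients_Sub hs
  obtain ⟨b, rfl⟩ := quotients_Sub ht
  obtain ⟨c, rfl⟩ := quotients_Sub hu
  have h0 : mulFun (mulFun (((1 : ℝ) • a, (0 : ℝ) • a, 0) : HV n)
    (((0 : ℝ) • b, (1 : ℝ) • b, 0) : HV n)) (((1 : ℝ) • c, (1 : ℝ) • c, 0) : HV n) = 0 := h
  have h1 : a + c = 0 := by
    simpa [mulFun] using congrArg (fun x : HV n => x.1) h0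
  have h2 : b + c = 0 := by
    simpa [mulFun] using congrArg (fun x : HV n => x.2.1) h0
  have h3 : ⟪a, b⟫ + ⟪a, c⟫ - ⟪b, c⟫ = 0 := by
    simpa [mulFun] using congrArg (fun x : HV n => x.2.2) h0
  have ha : a = -c := eq_neg_of_add_eq_zero_left h1
  have hb : b = -c := eq_neg_of_add_eq_zero_left h2
  rw [ha, hb] at h3
  simp only [inner_neg_left, inner_neg_right, neg_neg, sub_neg_eq_add, add_neg_cancel, zero_add]
    at h3
  have hc : c = 0 := by
    simpa using h3
  subst hc
  have ha0 : a = 0 := by simpa using ha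
  have hb0 : b = 0 := by simpa using hb
  subst ha0
  subst hb0
  have h4 : ∀ α β : ℝ, ((α • (0 : EuclideanSpace ℝ (Fin n)), β • (0 : EuclideanSpace ℝ (Fin n)), 0)
      : HV n) = 0 := by
    intro α β
    simp
  exact ⟨h4 1 0, h4 0 1, h4 1 1⟩

/-- The Lie exponent of the Heisenberg group of dimension `2 n + 1` is at most `2 + 1 / n`. -/
theorem lieExponent_le (n : ℕ) (hn : 1 ≤ n) :
    (lie n).lieExponent ≤ ((2 + 1 / (n : ℝ) : ℝ) : EReal) := by
  have hn0 : (0 : ℝ) < n := by exact_mod_cast hn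
  have hr : rank (lie n).E (lie n).G = 2 * n + 1 := rank_eq n
  have hd : finrank ℝ (lie n).E = 2 * n + 1 := by
    show finrank ℝ (HV n) = 2 * n + 1
    simp
    ring
  apply sInf_le
  refine ⟨Sub n 1 0, Sub n 0 1, Sub n 1 1, n, n, n, isSubmanifold_Sub 1 0 (Or.inl one_ne_zero),
    isSubmanifold_Sub 0 1 (Or.inr one_ne_zero), isSubmanifold_Sub 1 1 (Or.inl one_ne_zero),
    tripleProduct, ?_, ?_⟩
  · rw [hr, hd]
    have : ((n : ℝ) + n + n) / 3 - (((2 * n + 1 : ℕ) : ℝ) - ((2 * n + 1 : ℕ) : ℝ)) / 2 = n := by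
      ring
    rw [this]
    exact hn0
  · rw [hr, hd]
    congr 1
    push_cast
    field_simp
    ring

theorem tendsto_lieExponent : Tendsto (fun n => (lie n).lieExponent) atTop (𝓝 2) := by
  have h1 : Tendsto (fun n : ℕ => ((2 + 1 / (n : ℝ) : ℝ) : EReal)) atTop (𝓝 2) := by
    have h2 : Tendsto (fun n : ℕ => (2 + 1 / (n : ℝ) : ℝ)) atTop (𝓝 (2 + 0)) :=
      tendsto_const_nhds.add tendsto_one_div_atTop_nhds_zero_nat
    rw [add_zero] at h2
    exact (continuous_coe_real_ereal.tendsto 2).comp h2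
  refine tendsto_of_tendsto_of_tendsto_of_le_of_le' tendsto_const_nhds h1
    (Eventually.of_forall fun n => two_le_lieExponent _) ?_
  filter_upwards [eventually_ge_atTop 1] with n hn
  exact lieExponent_le n hn

end Pool.Agent.W964.LieExp.Heis
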